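import Mathlib
import Pool.Agent.H57.Extremal

/-!
# Multiplicities of points in complex arrangements without double points

Lines of the complex projective plane are the two-dimensional subspaces of `Fin 3 → ℂ` and
points are its one-dimensional subspaces. In a finite arrangement of `r` lines without double
points, not a pencil, every point lies on at most `r / 3` of the lines, and equality holds for
some point if and only if the arrangement is projectively a Fermat arrangement.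
-/

namespace Pool.Agent.Results.MP_75cc19_co.FermatExtremal

open Module

/-- The lines of the Fermat arrangement of order `m`: the planes in `Fin 3 → ℂ` contained in one
of the planes `x 0 = ζ x 1`, `x 0 = ζ x 2`, `x 1 = ζ x 2` with `ζ ^ m = 1`. -/
def fermat (m : ℕ) : Set (Submodule ℂ (Fin 3 → ℂ)) :=
  {ℓ : Submodule ℂ (Fin 3 → ℂ) | finrank ℂ ℓ = 2 ∧ ∃ ζ : ℂ, ζ ^ m = 1 ∧
    ((∀ x ∈ ℓ, x 0 = ζ * x 1) ∨ (∀ x ∈ ℓ, x 0 = ζ * x 2) ∨ (∀ x ∈ ℓ, x 1 = ζ * x 2))}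

/-- In an arrangement `A` of complex projective lines without double points which is not a
pencil, every point lies on at most a third of the lines, and some point lies on exactly a third
of the lines if and only if `A` is projectively equivalent to a Fermat arrangement. -/
theorem result (A : Set (Submodule ℂ (Fin 3 → ℂ))) (hfin : A.Finite)
    (hline : ∀ ℓ ∈ A, finrank ℂ ℓ = 2)
    (hthird : ∀ ℓ₁ ∈ A, ∀ ℓ₂ ∈ A, ℓ₁ ≠ ℓ₂ → ∀ p : Submodule ℂ (Fin 3 → ℂ),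
        finrank ℂ p = 1 → p ≤ ℓ₁ → p ≤ ℓ₂ →
          ∃ ℓ₃ ∈ A, ℓ₃ ≠ ℓ₁ ∧ ℓ₃ ≠ ℓ₂ ∧ p ≤ ℓ₃)
    (hpencil : ¬ ∃ p : Submodule ℂ (Fin 3 → ℂ), finrank ℂ p = 1 ∧ ∀ ℓ ∈ A, p ≤ ℓ) :
    (∀ p : Submodule ℂ (Fin 3 → ℂ), finrank ℂ p = 1 →
      3 * {ℓ | ℓ ∈ A ∧ p ≤ ℓ}.ncard ≤ A.ncard) ∧
    ((∃ p : Submodule ℂ (Fin 3 → ℂ), finrank ℂ p = 1 ∧
        3 * {ℓ | ℓ ∈ A ∧ p ≤ ℓ}.ncard = A.ncard) ↔
      ∃ m : ℕ, 3 ≤ m ∧ ∃ g : (Fin 3 → ℂ) ≃ₗ[ℂ] (Fin 3 → ℂ),
        A = Submodule.map g.toLinearMap '' fermat m) := by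
  have hA : Pool.Agent.H57.Trans.NoDouble A := ⟨hfin, hline, hthird, hpencil⟩
  refine ⟨fun p hp => Pool.Agent.H57.Trans.bound hA hp, ?_, ?_⟩
  · rintro ⟨p, hp, heq⟩
    exact Pool.Agent.H57.Trans.extremal hA hp heq
  · rintro ⟨m, hm, g, h⟩
    exact Pool.Agent.H57.Trans.fermat_extremal hA hm h

end Pool.Agent.Results.MP_75cc19_co.FermatExtremal
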