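import Mathlib
import Pool.Agent.H57.TransLoc

/-!
# Intersection points on a line of a complex arrangement

Lines of the complex projective plane are the two-dimensional subspaces of `Fin 3 → ℂ` and
points are its one-dimensional subspaces. Let `ℓ₀` be a line of a finite set `A` of lines, let
`p` be a point on `ℓ₀` and suppose that not all lines of `A` pass through `p`. If no line of `A`
through `p` other than `ℓ₀` contains a double point other than `p`, then `ℓ₀` contains at least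
as many intersection points different from `p` as there are lines of `A` through `p`.
-/

namespace Pool.Agent.Results.MP_75cc19_co.PointsOnLine

open Module

/-- The number of lines of `A` through a point `p` of `ℓ₀ ∈ A` is at most the number of
intersection points of `A` on `ℓ₀` other than `p`, provided some line of `A` misses `p` and no
other line of `A` through `p` carries a double point away from `p`. -/
theorem result (A : Set (Submodule ℂ (Fin 3 → ℂ))) (hfin : A.Finite)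
    (hline : ∀ ℓ ∈ A, finrank ℂ ℓ = 2)
    (p ℓ₀ : Submodule ℂ (Fin 3 → ℂ)) (hp : finrank ℂ p = 1) (hℓ₀ : ℓ₀ ∈ A) (hle : p ≤ ℓ₀)
    (hex : ∃ ℓ ∈ A, ¬ p ≤ ℓ)
    (hthird : ∀ ℓ₁ ∈ A, p ≤ ℓ₁ → ℓ₁ ≠ ℓ₀ → ∀ ℓ₂ ∈ A, ¬ p ≤ ℓ₂ →
      ∀ q : Submodule ℂ (Fin 3 → ℂ), finrank ℂ q = 1 → q ≤ ℓ₁ → q ≤ ℓ₂ →
        ∃ ℓ₃ ∈ A, ℓ₃ ≠ ℓ₁ ∧ ℓ₃ ≠ ℓ₂ ∧ q ≤ ℓ₃) :
    {ℓ | ℓ ∈ A ∧ p ≤ ℓ}.ncard ≤
      {q : Submodule ℂ (Fin 3 → ℂ) | finrank ℂ q = 1 ∧ q ≠ p ∧ q ≤ ℓ₀ ∧
        ∃ ℓ ∈ A, ℓ ≠ ℓ₀ ∧ q ≤ ℓ}.ncard :=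
  Pool.Agent.H57.TransLoc.main1 ⟨hfin, hline, hthird, hex⟩ hℓ₀ hp hle

end Pool.Agent.Results.MP_75cc19_co.PointsOnLine
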