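import Pool.Agent.H55.SG.Fer
import Pool.Agent.H55.SG.Grp
import Pool.Agent.H55.SG.Arr

/-!
# MP_75cc19_co: a complex arrangement of 22 lines with 64 triple, 4 quadruple, 1 sextuple point and no other intersection point
-/

set_option autoImplicit false

open Matrix

namespace Pool.Agent.Results.MP_75cc19_co.TwentyTwoLines

/-- the number of lines of `A` through `p` -/
noncomputable def linesThrough (A : Set (Submodule ℂ (Fin 3 → ℂ))) (p : Submodule ℂ (Fin 3 → ℂ)) : ℕ :=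
  {ℓ : Submodule ℂ (Fin 3 → ℂ) | ℓ ∈ A ∧ p ≤ ℓ}.ncard

/-- the `3 m` lines of the Fermat arrangement -/
def fermat (m : ℕ) : Set (Submodule ℂ (Fin 3 → ℂ)) :=
  {ℓ : Submodule ℂ (Fin 3 → ℂ) | Module.finrank ℂ ℓ = 2 ∧
    ∃ ζ : ℂ, ζ ^ m = 1 ∧ ((∀ x ∈ ℓ, x 0 = ζ * x 1) ∨ (∀ x ∈ ℓ, x 0 = ζ * x 2) ∨ (∀ x ∈ ℓ, x 1 = ζ * x 2))}

/-- the axes (lines of fixed points) of the involutions of a subgroup of `PGL₃(ℂ)` -/
def involutionAxes (K : Subgroup (GL (Fin 3) ℂ ⧸ Subgroup.center (GL (Fin 3) ℂ))) : Set (Submodule ℂ (Fin 3 → ℂ)) :=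
  {ℓ : Submodule ℂ (Fin 3 → ℂ) | Module.finrank ℂ ℓ = 2 ∧
    ∃ g : GL (Fin 3) ℂ, (QuotientGroup.mk g : GL (Fin 3) ℂ ⧸ Subgroup.center (GL (Fin 3) ℂ)) ∈ K ∧
      g ^ 2 ∈ Subgroup.center (GL (Fin 3) ℂ) ∧ g ∉ Subgroup.center (GL (Fin 3) ℂ) ∧
      ∃ c : ℂ, ∀ x ∈ ℓ, (g : Matrix (Fin 3) (Fin 3) ℂ) *ᵥ x = c • x}

/-- There are 22 lines in the complex projective plane with 64 triple points, 4 quadruple points, 1 sextuple point and no
other intersection point; they are not projectively equivalent to a Fermat arrangement and are not the set of the axes of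
the involutions of a finite subgroup of `PGL₃(ℂ)` (in particular not the Klein or the Wiman arrangement). -/
theorem result : ∃ A : Set (Submodule ℂ (Fin 3 → ℂ)),
    A.ncard = 22 ∧ (∀ ℓ ∈ A, Module.finrank ℂ ℓ = 2) ∧
    {p : Submodule ℂ (Fin 3 → ℂ) | Module.finrank ℂ p = 1 ∧ linesThrough A p = 3}.ncard = 64 ∧
    {p : Submodule ℂ (Fin 3 → ℂ) | Module.finrank ℂ p = 1 ∧ linesThrough A p = 4}.ncard = 4 ∧
    {p : Submodule ℂ (Fin 3 → ℂ) | Module.finrank ℂ p = 1 ∧ linesThrough A p = 6}.ncard = 1 ∧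
    (∀ p : Submodule ℂ (Fin 3 → ℂ), Module.finrank ℂ p = 1 → 2 ≤ linesThrough A p →
      linesThrough A p = 3 ∨ linesThrough A p = 4 ∨ linesThrough A p = 6) ∧
    (∀ m : ℕ, 1 ≤ m → ∀ g : (Fin 3 → ℂ) ≃ₗ[ℂ] (Fin 3 → ℂ), A ≠ Submodule.map g.toLinearMap '' fermat m) ∧
    (∀ K : Subgroup (GL (Fin 3) ℂ ⧸ Subgroup.center (GL (Fin 3) ℂ)), Finite K → A ≠ involutionAxes K) := by
  refine ⟨SG22.arr, SG22.card22, ?_, ?_, ?_, ?_, ?_, ?_, ?_⟩
  · rintro _ ⟨i, rfl⟩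
    exact SG22.finrank_lin (SG22.vec_ne i)
  · exact (SG22.count 3 (by norm_num)).trans SG22.cnt3
  · exact (SG22.count 4 (by norm_num)).trans SG22.cnt4
  · exact (SG22.count 6 (by norm_num)).trans SG22.cnt6
  · intro p hp h
    obtain ⟨L, rfl⟩ := SG22.exists_pw hp h
    have h1 : linesThrough SG22.arr (SG22.pw L) = SG22.cnt L := SG22.mult_pw L
    rw [h1]
    exact SG22.cnt_all L
  · intro m hm g h
    have h3 := SG22.fset_dvd hm g
    have h4 : (Submodule.map g.toLinearMap '' SG22.Fset m).ncard = 22 := by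
      rw [← SG22.card22]
      exact congrArg Set.ncard h.symm
    rw [h4] at h3
    omega
  · intro K hK h
    have h2 : (SG22.axes K) = SG22.arr := h.symm
    have h1 := SG22.axes_odd K (by rw [h2]; exact ⟨_, ⟨0, rfl⟩⟩)
    rw [h2] at h1
    have h5 : SG22.arr.ncard = 22 := SG22.card22
    rw [h5] at h1
    exact absurd h1 (by decide)

end Pool.Agent.Results.MP_75cc19_co.TwentyTwoLines
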